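import Pool.Agent.MP_827700_an.Proof

/-!
The algebraic entropy `h_A` is upper continuous on all flows of locally compact Hausdorff abelian
groups: for every directed family of closed invariant subgroups with union `G`, the entropy of `φ`
is the supremum of the entropies of its restrictions (each computed with any Haar measure of the
subgroup).
-/

namespace Pool.Agent.Results.MP_827700_an.UpperContinuous

open MeasureTheory Pool.Agent.MP_827700_an

theorem result {G : Type*} [AddCommGroup G] [TopologicalSpace G] [IsTopologicalAddGroup G]
    [LocallyCompactSpace G] [T2Space G] [MeasurableSpace G] [BorelSpace G]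
    (μ : Measure G) [μ.IsAddHaarMeasure]
    (φ : G →+ G) (hφ : Continuous φ)
    {I : Type*} (K : I → AddSubgroup G)
    (hclosed : ∀ i, IsClosed (K i : Set G))
    (hinv : ∀ i, ∀ x ∈ K i, φ x ∈ K i)
    (hdir : Directed (· ≤ ·) K)
    (hunion : ⋃ i, (K i : Set G) = Set.univ)
    (ν : ∀ i, Measure (K i)) [∀ i, (ν i).IsAddHaarMeasure] :
    algEntropy μ φ = ⨆ i, algEntropy (ν i) (restr φ (K i) (hinv i)) :=
  upper_continuous μ φ hφ K hclosed hinv hdir hunion ν

end Pool.Agent.Results.MP_827700_an.UpperContinuous
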